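import Pool.Agent.K3h53.UG.Stm5

/-! Brick COR2 of the UG project (helper53): graphs of polynomial maps with real leading forms. -/

set_option autoImplicit false

namespace Pool.Agent.K3h64.UG

open MvPolynomial Pool.Agent.K3h22.EX Pool.Agent.K3h53.UG

lemma exists_kappa (g : ℕ) (hg : 2 ≤ g) : ∃ κ : ℂ, κ.re = 1 ∧ (κ ^ g).re = 0 := by
  have hg' : (2:ℝ) ≤ g := by exact_mod_cast hg
  have hg0 : (0:ℝ) < g := by linarith
  obtain ⟨φ, hφ⟩ : ∃ φ : ℝ, φ = Real.pi / (2 * g) := ⟨_, rfl⟩
  have hφ1 : 0 < φ := by rw [hφ]; positivity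
  have hφ2 : φ < Real.pi / 2 := by
    rw [hφ, div_lt_div_iff₀ (by positivity) (by norm_num)]
    nlinarith [Real.pi_pos]
  have hc : 0 < Real.cos φ := Real.cos_pos_of_mem_Ioo ⟨by linarith, hφ2⟩
  refine ⟨Complex.exp (φ * Complex.I) / (Real.cos φ : ℂ), ?_, ?_⟩
  · rw [Complex.div_ofReal_re, Complex.exp_ofReal_mul_I_re, div_self hc.ne']
  · rw [div_pow, ← Complex.exp_nat_mul, ← Complex.ofReal_pow, Complex.div_ofReal_re]
    have : (g:ℂ) * (φ * Complex.I) = ((Real.pi / 2 : ℝ) : ℂ) * Complex.I := by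
      have h0 : (g:ℂ) ≠ 0 := by exact_mod_cast hg0.ne'
      rw [hφ]; push_cast; field_simp
    rw [this, Complex.exp_ofReal_mul_I_re, Real.cos_pi_div_two, zero_div]

lemma pow_odd_re (z : ℂ) (hz : z.re = 0) (k : ℕ) : (z ^ (2 * k + 1)).re = 0 := by
  obtain ⟨y, rfl⟩ : ∃ y : ℝ, z = y * Complex.I := ⟨z.im, by apply Complex.ext <;> simp [hz]⟩
  rw [pow_succ, pow_mul, mul_pow, Complex.I_sq]
  have : (((y:ℂ)^2 * -1)^k) = (((-(y^2))^k : ℝ) : ℂ) := by push_cast; ring
  rw [this, ← mul_assoc, ← Complex.ofReal_mul, Complex.re_ofReal_mul]; simp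

lemma eval_smul_hom {n : ℕ} (P : MvPolynomial (Fin n) ℂ) (d : ℕ) (hP : P.IsHomogeneous d)
    (κ : ℂ) (z : Fin n → ℂ) : eval (fun j => κ * z j) P = κ ^ d * eval z P := by
  rw [eval_eq', eval_eq', Finset.mul_sum]
  refine Finset.sum_congr rfl fun m hm => ?_
  have h := hP (mem_support_iff.mp hm)
  have h2 : ∑ j, m j = d := by
    rw [← h, Finsupp.weight_apply, Finsupp.sum_fintype _ _ (by simp)]
    simp
  simp only [mul_pow, Finset.prod_mul_distrib, Finset.prod_pow_eq_pow_sum]
  rw [h2]; ring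

lemma eval_real_im {n : ℕ} (P : MvPolynomial (Fin n) ℂ) (hP : ∀ m, (coeff m P).im = 0)
    (z : Fin n → ℝ) : (eval (fun j => (z j : ℂ)) P).im = 0 := by
  rw [eval_eq', Complex.im_sum]
  refine Finset.sum_eq_zero fun m _ => ?_
  have : ∏ j, ((z j : ℂ)) ^ m j = ((∏ j, z j ^ m j : ℝ) : ℂ) := by push_cast; rfl
  rw [this, Complex.mul_im, Complex.ofReal_im, hP m]; simp

lemma pderiv_supported {n : ℕ} (V : Set (Fin n)) (P : MvPolynomial (Fin n) ℂ)
    (hP : P ∈ supported ℂ V) (j : Fin n) : pderiv j P ∈ supported ℂ V := by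
  refine Algebra.adjoin_induction (p := fun x _ => pderiv j x ∈ supported ℂ V) ?_ ?_ ?_ ?_ hP
  · rintro _ ⟨i, hi, rfl⟩
    rw [pderiv_X]
    by_cases h : i = j
    · subst h; simp
    · rw [Pi.single_eq_of_ne (by exact h)]; exact Subalgebra.zero_mem _
  · intro a
    rw [algebraMap_eq, pderiv_C]; exact Subalgebra.zero_mem _
  · intro x y _ _ hx hy
    rw [map_add]; exact Subalgebra.add_mem _ hx hy
  · intro x y hx' hy' hx hy
    rw [pderiv_mul]
    exact Subalgebra.add_mem _ (Subalgebra.mul_mem _ hx hy') (Subalgebra.mul_mem _ hx' hy)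

lemma eval_supported {n : ℕ} (V : Set (Fin n)) (P : MvPolynomial (Fin n) ℂ)
    (hP : P ∈ supported ℂ V) (z z' : Fin n → ℂ) (h : ∀ j ∈ V, z j = z' j) :
    eval z P = eval z' P := by
  refine Algebra.adjoin_induction (p := fun x _ => eval z x = eval z' x) ?_ ?_ ?_ ?_ hP
  · rintro _ ⟨j, hj, rfl⟩; simp [h j hj]
  · intro a; simp [algebraMap_eq]
  · intro x y _ _ hx hy; simp [hx, hy]
  · intro x y _ _ hx hy; simp [hx, hy]

lemma top_supported {n : ℕ} (V : Set (Fin n)) (q : MvPolynomial (Fin n) ℂ)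
    (hq : ∀ j ∈ q.vars, j ∈ V) : top q ∈ supported ℂ V := by
  classical
  rw [mem_supported]
  intro j hj
  apply hq
  rw [Finset.mem_coe, mem_vars_iff_mem_support] at hj
  obtain ⟨m, hm, hjm⟩ := hj
  rw [mem_vars_iff_mem_support]
  refine ⟨m, ?_, hjm⟩
  rw [mem_support_iff] at hm ⊢
  intro h0
  apply hm
  rw [top, coeff_homogeneousComponent, h0, ite_self]

lemma wtop_graph {n : ℕ} (w : Fin n → ℕ) (x : Fin n) (q : MvPolynomial (Fin n) ℂ)
    (hx : w x = q.totalDegree) (hxq : x ∉ q.vars) (hw : ∀ j ∈ q.vars, w j = 1) :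
    wtop w (X x - q) = X x - top q := by
  classical
  have hwt : ∀ m ∈ q.support, Finsupp.weight w m = m.degree := by
    intro m hm
    rw [Finsupp.weight_apply, Finsupp.sum, Finsupp.degree]
    refine Finset.sum_congr rfl fun j hj => ?_
    have : j ∈ q.vars := (mem_vars_iff_mem_support j).mpr ⟨m, hm, hj⟩
    rw [hw j this]; simp
  have hc : coeff (Finsupp.single x 1) q = 0 := by
    by_contra h
    apply hxq
    rw [mem_vars_iff_mem_support]
    exact ⟨_, mem_support_iff.mpr h, by simp⟩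
  have hws : Finsupp.weight w (Finsupp.single x 1) = w x := by
    rw [Finsupp.weight_apply, Finsupp.sum_single_index] <;> simp
  have htd : weightedTotalDegree w (X x - q) = q.totalDegree := by
    apply le_antisymm
    · apply Finset.sup_le
      intro m hm
      by_cases hmx : m = Finsupp.single x 1
      · rw [hmx, hws, hx]
      · have hmq : m ∈ q.support := by
          rw [mem_support_iff] at hm ⊢
          rw [coeff_sub, coeff_X, if_neg (Ne.symm hmx), zero_sub] at hm
          exact neg_ne_zero.mp hm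
        rw [hwt m hmq]
        exact le_totalDegree hmq
    · rw [← hx, ← hws]
      apply le_weightedTotalDegree
      rw [mem_support_iff, coeff_sub, hc, coeff_X]
      simp
  rw [wtop, htd, map_sub, weightedHomogeneousComponent_of_mem
    (by rw [mem_weightedHomogeneousSubmodule]; exact isWeightedHomogeneous_X ℂ w x), if_pos hx.symm]
  congr 1
  ext m
  rw [coeff_weightedHomogeneousComponent, top, coeff_homogeneousComponent]
  by_cases hm : m ∈ q.support
  · rw [hwt m hm]
  · rw [notMem_support_iff.mp hm]; simp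

lemma eval_dd {n : ℕ} (V : Set (Fin n)) (P : MvPolynomial (Fin n) ℂ)
    (hP : P ∈ supported ℂ V) (u : Fin n → ℂ) (z z' : Fin n → ℂ) (h : ∀ j ∈ V, z j = z' j) :
    eval z (dd u P) = eval z' (dd u P) := by
  rw [dd, map_sum, map_sum]
  refine Finset.sum_congr rfl fun j _ => ?_
  rw [map_mul, map_mul, eval_C, eval_C,
    eval_supported V _ (pderiv_supported V P hP j) z z' h]

lemma dd_hom {n : ℕ} (P : MvPolynomial (Fin n) ℂ) (d : ℕ) (hP : P.IsHomogeneous d)
    (u : Fin n → ℂ) : (dd u P).IsHomogeneous (d - 1) := by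
  rw [dd]
  apply IsHomogeneous.sum
  intro j _
  have := (isHomogeneous_C (Fin n) (u j)).mul (hP.pderiv (i := j))
  simpa using this

/-- real points in open sets where a nonzero polynomial does not vanish -/
lemma exists_real {r : ℕ} (D : MvPolynomial (Fin r) ℂ) (hD : D ≠ 0) (U : Set (Fin r → ℝ))
    (hU : IsOpen U) (hne : U.Nonempty) : ∃ t ∈ U, eval (fun b => ((t b : ℝ) : ℂ)) D ≠ 0 := by
  obtain ⟨t0, ht0⟩ := hne
  obtain ⟨ε, hε, hb⟩ := Metric.isOpen_iff.mp hU t0 ht0
  by_contra hcon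
  push Not at hcon
  apply hD
  refine funext_set (s := fun b => Complex.ofReal '' Metric.ball (t0 b) ε) ?_ ?_
  · intro b
    refine Set.Infinite.image Complex.ofReal_injective.injOn ?_
    rw [Real.ball_eq_Ioo]
    exact Set.Ioo_infinite (by linarith)
  · intro x hx
    have : ∀ b, ∃ y ∈ Metric.ball (t0 b) ε, (y : ℂ) = x b := fun b => hx b (Set.mem_univ b)
    choose t ht htx using this
    have e1 : x = fun b => ((t b : ℝ) : ℂ) := by funext b; exact (htx b).symm
    rw [e1, hcon t (hb ?_), map_zero]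
    rw [Metric.mem_ball, dist_pi_lt_iff hε]
    intro b
    exact ht b

theorem t_COR2 : S_COR2 := by
  classical
  intro n s r e J q w g hJ hJe hJv hwJ hw1 hg hd hre hdet σ U hU hne
  -- degrees at least two
  have hd2 : ∀ i, 2 ≤ w (J i) := by
    intro i
    obtain ⟨k, hk⟩ := hd i
    rw [hwJ i, hk]
    nlinarith
  -- the slopes
  obtain ⟨S, hS⟩ : ∃ S : Fin n → Fin r → ℚ, S = fun x b' =>
      (Sum.elim (fun j => if w (e (Sum.inl j)) = 1 then σ j b' else 0)
        (fun b => if b = b' then 1 else 0) : Fin s ⊕ Fin r → ℚ) (e.symm x) := ⟨_, rfl⟩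
  have hSr : ∀ b b', S (e (Sum.inr b)) b' = if b = b' then 1 else 0 := by
    intro b b'; rw [hS]; simp
  have hSJ : ∀ i b, S (J i) b = 0 := by
    intro i b
    rw [hS]
    rcases h : e.symm (J i) with j | b'
    · have hj : e (Sum.inl j) = J i := by rw [← h]; simp
      simp only [h, Sum.elim_inl]
      rw [hj, if_neg]
      have := hd2 i
      omega
    · exfalso
      apply hJe i b'
      rw [← h]; simp
  have hxr : ∀ (l : Fin s → ℂ) (θ : Fin r → ℂ), xr e (sg e w fun j b => ((σ j b : ℚ) : ℝ)) l θ =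
      fun x => (Sum.elim l (fun _ => 0) : Fin s ⊕ Fin r → ℂ) (e.symm x) +
        ∑ b, ((S x b : ℚ) : ℂ) * θ b := by
    intro l θ
    funext x
    rw [xr]
    rcases h : e.symm x with j | b
    · have hSx : ∀ b, S x b = if w (e (Sum.inl j)) = 1 then σ j b else 0 := by
        intro b; rw [hS]; simp only [h, Sum.elim_inl]
      simp only [Sum.elim_inl, sg, hSx]
      congr 1
      refine Finset.sum_congr rfl fun b _ => ?_
      split_ifs <;> simp
    · have hSx : ∀ b', S x b' = if b = b' then 1 else 0 := by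
        intro b; rw [hS]; simp only [h, Sum.elim_inr]
      simp only [Sum.elim_inr, zero_add, hSx]
      rw [Finset.sum_eq_single b]
      · simp
      · intro b' _ hb'
        rw [if_neg (Ne.symm hb')]; simp
      · simp
  have hxs : ∀ b, xr e (sg e w fun j b => ((σ j b : ℚ) : ℝ)) 0 (Pi.single b 1) =
      fun x => ((S x b : ℚ) : ℂ) := by
    intro b
    rw [hxr]
    funext x
    have h0 : (Sum.elim (0 : Fin s → ℂ) (fun _ => 0) : Fin s ⊕ Fin r → ℂ) (e.symm x) = 0 := by
      rcases e.symm x with j | b <;> simp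
    rw [h0, zero_add, Finset.sum_eq_single b]
    · simp
    · intro b' _ hb'
      rw [Pi.single_eq_of_ne hb', mul_zero]
    · simp
  -- the polynomial determinant
  obtain ⟨t₀, ht₀⟩ := hdet S hSr
  obtain ⟨M, hM⟩ : ∃ M : Matrix (Fin r) (Fin r) (MvPolynomial (Fin r) ℂ),
      M = Matrix.of fun i b => aeval (fun j => ∑ b', C ((S j b' : ℚ) : ℂ) * X b')
        (dd (fun j => ((S j b : ℚ) : ℂ)) (top (q i))) := ⟨_, rfl⟩
  have hMe : ∀ t : Fin r → ℂ, eval t M.det = (Matrix.of fun i b : Fin r =>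
      eval (fun j => ∑ b', ((S j b' : ℚ) : ℂ) * t b')
        (dd (fun j => ((S j b : ℚ) : ℂ)) (top (q i)))).det := by
    intro t
    rw [RingHom.map_det]
    congr 1
    ext i b
    rw [RingHom.mapMatrix_apply, Matrix.map_apply, hM, Matrix.of_apply, Matrix.of_apply]
    generalize dd (fun j => ((S j b : ℚ) : ℂ)) (top (q i)) = P
    induction P using MvPolynomial.induction_on with
    | C a => simp [algebraMap_eq]
    | add p p' hp hp' => simp only [map_add, hp, hp']
    | mul_X p j hp => rw [map_mul, map_mul, hp, map_mul]; simp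
  have hMne : M.det ≠ 0 := by
    intro h0
    apply ht₀
    rw [← hMe, h0, map_zero]
  obtain ⟨t, htU, ht⟩ := exists_real M.det hMne U hU hne
  rw [hMe] at ht
  obtain ⟨κ, hκ1, hκg⟩ := exists_kappa g hg
  have hκ0 : κ ≠ 0 := by
    intro h0; rw [h0] at hκ1; simp at hκ1
  -- the points
  obtain ⟨z1, hz1⟩ : ∃ z1 : Fin n → ℝ, z1 = fun x => ∑ b, ((S x b : ℚ) : ℝ) * t b := ⟨_, rfl⟩
  have hz1c : (fun x => ((z1 x : ℝ) : ℂ)) = fun x => ∑ b, ((S x b : ℚ) : ℂ) * ((t b : ℝ) : ℂ) := by
    funext x; rw [hz1]; push_cast; rfl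
  obtain ⟨z0, hz0⟩ : ∃ z0 : Fin n → ℂ, z0 = fun x => κ * ((z1 x : ℝ) : ℂ) := ⟨_, rfl⟩
  have htopd : ∀ i, (top (q i)).IsHomogeneous (q i).totalDegree := fun i =>
    homogeneousComponent_isHomogeneous _ _
  have hval : ∀ i, (eval z0 (top (q i))).re = 0 := by
    intro i
    obtain ⟨k, hk⟩ := hd i
    rw [hz0, eval_smul_hom _ _ (htopd i), Complex.mul_re, eval_real_im _ (hre i), hk, pow_mul,
      pow_odd_re _ hκg k]
    simp
  obtain ⟨lF, hlF⟩ : ∃ lF : Fin n → ℂ, lF = fun x => ∑ i, if J i = x then eval z0 (top (q i)) else 0 :=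
    ⟨_, rfl⟩
  have hlJ : ∀ i, lF (J i) = eval z0 (top (q i)) := by
    intro i
    rw [hlF]
    simp only
    rw [Finset.sum_eq_single i]
    · simp
    · intro i' _ hi'
      rw [if_neg fun h => hi' (hJ h)]
    · simp
  have hl0 : ∀ x, (∀ i, J i ≠ x) → lF x = 0 := by
    intro x hx
    rw [hlF]
    exact Finset.sum_eq_zero fun i _ => if_neg (hx i)
  have hlre : ∀ x, (lF x).re = 0 := by
    intro x
    by_cases h : ∃ i, J i = x
    · obtain ⟨i, rfl⟩ := h
      rw [hlJ i, hval i]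
    · push Not at h
      rw [hl0 x h]; simp
  obtain ⟨ζ, hζ⟩ : ∃ ζ : Fin n → ℂ, ζ = xr e (sg e w fun j b => ((σ j b : ℚ) : ℝ))
      (fun j => lF (e (Sum.inl j))) (fun b => κ * ((t b : ℝ) : ℂ)) := ⟨_, rfl⟩
  have hζ1 : ∀ x, ζ x = lF x + z0 x := by
    intro x
    rw [hζ, hxr]
    simp only
    congr 1
    · rcases h : e.symm x with j | b
      · simp only [Sum.elim_inl]
        rw [← h]; simp
      · simp only [Sum.elim_inr]
        rw [hl0 x]
        intro i hi
        apply hJe i b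
        rw [← h, hi]; simp
    · rw [hz0, hz1]
      simp only
      push_cast
      rw [Finset.mul_sum]
      exact Finset.sum_congr rfl fun b _ => by ring
  obtain ⟨V, hV⟩ : ∃ V : Set (Fin n), V = {x | ∀ i, J i ≠ x} := ⟨_, rfl⟩
  have hsup : ∀ i, top (q i) ∈ supported ℂ V := by
    intro i
    apply top_supported
    intro j hj
    rw [hV]
    intro i' hi'
    exact hJv i i' (hi' ▸ hj)
  have hζV : ∀ x ∈ V, ζ x = z0 x := by
    intro x hx
    rw [hV] at hx
    rw [hζ1, hl0 x hx, zero_add]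
  have hz0J : ∀ i, z0 (J i) = 0 := by
    intro i
    rw [hz0, hz1]
    simp [hSJ]
  have hwtop : ∀ i, wtop w (X (J i) - q i) = X (J i) - top (q i) := by
    intro i
    apply wtop_graph w (J i) (q i) (hwJ i) (hJv i i)
    intro j hj
    apply hw1
    intro i' hi'
    exact hJv i i' (hi' ▸ hj)
  refine ⟨fun j => lF (e (Sum.inl j)), fun b => κ * ((t b : ℝ) : ℂ), ⟨?_, ?_, ?_⟩, ?_⟩
  · intro j
    exact hlre _
  · intro i
    rw [← hζ]
    rw [hwtop i, map_sub, eval_X, hζ1, hz0J i, add_zero, hlJ i,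
      eval_supported V _ (hsup i) ζ z0 hζV, sub_self]
  · rw [← hζ]
    have hentry : (Matrix.of fun i b : Fin r =>
        eval ζ (dd (xr e (sg e w fun j b => ((σ j b : ℚ) : ℝ)) 0 (Pi.single b 1))
          (wtop w (X (J i) - q i)))) = Matrix.of fun i b : Fin r =>
        (-(κ ^ ((q i).totalDegree - 1))) * (Matrix.of fun i b : Fin r =>
      eval (fun j => ∑ b', ((S j b' : ℚ) : ℂ) * ((t b' : ℝ) : ℂ))
        (dd (fun j => ((S j b : ℚ) : ℂ)) (top (q i)))) i b := by
      ext i b
      rw [Matrix.of_apply, Matrix.of_apply, Matrix.of_apply, hxs b, hwtop i]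
      have h1 : dd (fun x => ((S x b : ℚ) : ℂ)) (X (J i) - top (q i)) =
          - dd (fun x => ((S x b : ℚ) : ℂ)) (top (q i)) := by
        rw [dd, dd, ← Finset.sum_neg_distrib]
        refine Finset.sum_congr rfl fun j _ => ?_
        rw [map_sub, mul_sub, pderiv_X]
        by_cases hj : J i = j
        · subst hj
          rw [hSJ]; simp
        · rw [Pi.single_eq_of_ne (by exact hj)]; simp
      rw [h1, map_neg, eval_dd V _ (hsup i) _ ζ z0 hζV, hz0,
        eval_smul_hom _ _ (dd_hom _ _ (htopd i) _), hz1c]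
      ring
    rw [hentry, Matrix.det_mul_column]
    exact mul_ne_zero (Finset.prod_ne_zero_iff.mpr fun i _ => neg_ne_zero.mpr (pow_ne_zero _ hκ0)) ht
  · have : (fun b => (κ * ((t b : ℝ) : ℂ)).re) = t := by
      funext b
      rw [Complex.mul_re, hκ1, Complex.ofReal_re, Complex.ofReal_im]; ring
    rw [this]
    exact htU

end Pool.Agent.K3h64.UG
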